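import Pool.Agent.Helper89.Slab.Defs

/-!
Module SLAB-S1 (written by helper98): the shape class is preserved by averaging.
-/

set_option autoImplicit false

namespace Slab

open MeasureTheory Set intervalIntegral

namespace Avg

/-- the primitive -/
noncomputable def R (r : ℝ → ℝ) (y : ℝ) : ℝ := ∫ t in (0 : ℝ)..y, r t

lemma R_hasDerivAt {r : ℝ → ℝ} (hc : Continuous r) (y : ℝ) : HasDerivAt (R r) (r y) y :=
  integral_hasDerivAt_right (hc.intervalIntegrable _ _)
    (hc.stronglyMeasurableAtFilter _ _) hc.continuousAt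

lemma R_sub {r : ℝ → ℝ} (hc : Continuous r) (a b : ℝ) : R r b - R r a = ∫ t in a..b, r t := by
  unfold R
  rw [integral_interval_sub_left (hc.intervalIntegrable _ _) (hc.intervalIntegrable _ _)]

lemma R_neg {r : ℝ → ℝ} (he : ∀ s, r (-s) = r s) (y : ℝ) : R r (-y) = - R r y := by
  unfold R
  have h1 : ∫ t in (0 : ℝ)..y, r t = ∫ t in (0 : ℝ)..y, r (-t) := by
    simp only [he]
  rw [h1, integral_comp_neg, neg_zero, integral_symm]

lemma A_eq {r : ℝ → ℝ} (hc : Continuous r) {x : ℝ} (hx : 0 < x) (s : ℝ) :
    A x r s = (R r (s + x) - R r (s - x)) / x := by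
  rw [R_sub hc]
  unfold A
  rw [integral_comp_sub_mul r hx.ne' s]
  rw [smul_eq_mul]
  have h1 : s - x * 1 = s - x := by ring
  have h2 : s - x * -1 = s + x := by ring
  rw [h1, h2]
  field_simp

lemma A_hasDerivAt {r : ℝ → ℝ} (hc : Continuous r) {x : ℝ} (hx : 0 < x) (s : ℝ) :
    HasDerivAt (A x r) ((r (s + x) - r (s - x)) / x) s := by
  have h1 : A x r = fun s => (R r (s + x) - R r (s - x)) / x := funext (A_eq hc hx)
  rw [h1]
  have h2 : HasDerivAt (fun s => R r (s + x)) (r (s + x)) s := by
    have := (R_hasDerivAt hc (s + x)).comp_add_const s x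
    exact this
  have h3 : HasDerivAt (fun s => R r (s - x)) (r (s - x)) s := by
    have := (R_hasDerivAt hc (s - x)).comp_sub_const s x
    exact this
  exact (h2.sub h3).div_const x

lemma A_continuous {r : ℝ → ℝ} (hc : Continuous r) {x : ℝ} (hx : 0 < x) :
    Continuous (A x r) :=
  continuous_iff_continuousAt.2 (fun s => (A_hasDerivAt hc hx s).continuousAt)

lemma A_zero (r : ℝ → ℝ) : A 0 r = fun s => 2 * r s := by
  funext s
  unfold A
  simp only [zero_mul, sub_zero, intervalIntegral.integral_const, smul_eq_mul]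
  ring

lemma A_neg (r : ℝ → ℝ) (x : ℝ) : A (-x) r = A x r := by
  funext s
  unfold A
  have h2 := intervalIntegral.integral_comp_neg (a := -1) (b := 1) (fun v => r (s - x * v))
  simp only [neg_neg] at h2
  rw [← h2]
  apply intervalIntegral.integral_congr
  intro u _
  simp only
  congr 1
  ring

/-- the structure is inherited for positive `x` -/
lemma main {r : ℝ → ℝ} (h : Sh r) {x : ℝ} (hx : 0 < x) : Sh (A x r) := by
  have hc := h.cont
  have he := h.even
  obtain ⟨L₁, hL₁⟩ := h.supp
  obtain ⟨s₁, z, hs0, hsz, hneg, hpos, hmono, hanti⟩ := h.shape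
  -- a nonnegative bound of the support
  set L : ℝ := max L₁ 0 with hLdef
  have hL0 : 0 ≤ L := le_max_right _ _
  have hL : ∀ s, L ≤ |s| → r s = 0 := fun s hs => hL₁ s ((le_max_left _ _).trans hs)
  -- the primitive vanishes outside `[-L, L]`
  have hRconst : ∀ y, L ≤ y → R r y = R r L := by
    intro y hy
    have h1 : R r y - R r L = 0 := by
      rw [R_sub hc]
      have : ∫ t in L..y, r t = ∫ t in L..y, (0 : ℝ) := by
        apply integral_congr
        intro t ht
        rw [uIcc_of_le hy] at ht
        simp only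
        exact hL t (ht.1.trans (le_abs_self _))
      rw [this, intervalIntegral.integral_zero]
    linarith
  have hRL : R r L = 0 := by
    have h1 : ∫ s, r s = ∫ t in (-L)..L, r t := by
      rw [intervalIntegral.integral_of_le (by linarith)]
      symm
      apply setIntegral_eq_integral_of_forall_compl_eq_zero
      intro t ht
      apply hL
      by_contra hlt
      rw [not_le, abs_lt] at hlt
      exact ht ⟨hlt.1, hlt.2.le⟩
    rw [h.int0, ← R_sub hc, R_neg he] at h1
    linarith
  have hR0 : ∀ y, L ≤ y → R r y = 0 := fun y hy => (hRconst y hy).trans hRL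
  have hR0' : ∀ y, L ≤ |y| → R r y = 0 := by
    intro y hy
    rcases le_or_gt 0 y with h0 | h0
    · rw [abs_of_nonneg h0] at hy
      exact hR0 y hy
    · rw [abs_of_neg h0] at hy
      have := hR0 (-y) hy
      rw [R_neg he] at this
      linarith
  -- the primitive is nonpositive on `[0, ∞)`
  have hRneg : ∀ y, 0 ≤ y → R r y ≤ 0 := by
    intro y hy
    rcases le_total y s₁ with h1 | h1
    · unfold R
      have : (∫ t in (0:ℝ)..y, r t) ≤ ∫ t in (0:ℝ)..y, (0:ℝ) := by
        apply integral_mono_on hy (hc.intervalIntegrable _ _) (by simp)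
        intro t ht
        exact hneg t ht.1 (ht.2.trans h1)
      simpa using this
    · have h2 : 0 ≤ R r (max L y) - R r y := by
        rw [R_sub hc]
        apply integral_nonneg (le_max_right _ _)
        intro t ht
        exact hpos t (h1.trans ht.1)
      rw [hR0 _ (le_max_left _ _)] at h2
      linarith
  have hrneg : ∀ y, -s₁ ≤ y → y ≤ s₁ → r y ≤ 0 := by
    intro y h1 h2
    rcases le_total 0 y with h0 | h0
    · exact hneg y h0 h2
    · rw [← he]
      exact hneg (-y) (by linarith) (by linarith)
  -- evenness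
  have hAe : ∀ s, A x r (-s) = A x r s := by
    intro s
    rw [A_eq hc hx, A_eq hc hx]
    have h1 : R r (-s + x) = - R r (s - x) := by
      rw [← R_neg he]
      congr 1
      ring
    have h2 : R r (-s - x) = - R r (s + x) := by
      rw [← R_neg he]
      congr 1
      ring
    rw [h1, h2]
    ring
  have hAsupp : ∀ s, L + x ≤ |s| → A x r s = 0 := by
    have key : ∀ s, L + x ≤ s → A x r s = 0 := by
      intro s hs
      rw [A_eq hc hx, hR0 _ (by linarith), hR0 _ (by linarith)]
      simp
    intro s hs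
    rcases le_total 0 s with h0 | h0
    · rw [abs_of_nonneg h0] at hs
      exact key s hs
    · rw [abs_of_nonpos h0] at hs
      rw [← hAe]
      exact key (-s) hs
  -- the integral
  have hint : ∫ s, A x r s = 0 := by
    have hRc : Continuous (R r) :=
      continuous_iff_continuousAt.2 (fun s => (R_hasDerivAt hc s).continuousAt)
    have hRi : Integrable (R r) := by
      apply hRc.integrable_of_hasCompactSupport
      apply HasCompactSupport.of_support_subset_isCompact (K := Icc (-L) L) isCompact_Icc
      intro y hy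
      rw [mem_Icc, ← abs_le]
      by_contra hlt
      exact hy (hR0' y (not_le.1 hlt).le)
    have h1 : (fun s => A x r s) = fun s => (R r (s + x) - R r (s - x)) / x :=
      funext (A_eq hc hx)
    rw [h1, MeasureTheory.integral_div, MeasureTheory.integral_sub (hRi.comp_add_right x) (hRi.comp_sub_right x),
      integral_add_right_eq_self (R r) x, integral_sub_right_eq_self (R r) x]
    simp
  refine ⟨A_continuous hc hx, hAe, ⟨L + x, hAsupp⟩, hint, ?_⟩
  -- the shape
  set L0 : ℝ := |s₁ - x| with hL0def
  have hL0a : s₁ - x ≤ L0 := le_abs_self _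
  have hL0b : x - s₁ ≤ L0 := by
    have := neg_abs_le (s₁ - x)
    linarith
  have hL0c : L0 ≤ s₁ + x := abs_le.2 ⟨by linarith, by linarith⟩
  have hL0n : 0 ≤ L0 := abs_nonneg _
  let D : ℝ → ℝ := fun s => r (s + x) - r (s - x)
  have hD1 : ∀ s, L0 ≤ s → s ≤ s₁ + x → 0 ≤ D s := by
    intro s h1 h2
    have h3 := hpos (s + x) (by linarith)
    have h4 := hrneg (s - x) (by linarith) (by linarith)
    simp only [D]
    linarith
  have hDz : ∀ s, s₁ + x ≤ s → 0 < D s → s - x < z := by
    intro s h1 h2
    by_contra h3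
    rw [not_lt] at h3
    have := hanti (mem_Ici.2 h3) (mem_Ici.2 (by linarith : z ≤ s + x)) (by linarith)
    simp only [D] at h2
    linarith
  have hD2 : ∀ s s', s₁ + x ≤ s' → s' ≤ s → 0 < D s → 0 ≤ D s' := by
    intro s s' h1 h2 h3
    have h4 := hDz s (h1.trans h2) h3
    simp only [D] at h3 ⊢
    rcases le_total (s' + x) z with h5 | h5
    · have := hmono (⟨by linarith, by linarith⟩ : s' - x ∈ Icc s₁ z)
        (⟨by linarith, h5⟩ : s' + x ∈ Icc s₁ z) (by linarith)
      linarith
    · have h6 := hmono (⟨by linarith, by linarith⟩ : s' - x ∈ Icc s₁ z)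
        (⟨by linarith, h4.le⟩ : s - x ∈ Icc s₁ z) (by linarith)
      have h7 := hanti (mem_Ici.2 h5) (mem_Ici.2 (by linarith : z ≤ s + x)) (by linarith)
      linarith
  let S : Set ℝ := insert (s₁ + x) {s | s₁ + x ≤ s ∧ 0 < D s}
  have hSb : BddAbove S := by
    refine ⟨z + x, ?_⟩
    rintro s (rfl | ⟨h1, h2⟩)
    · linarith
    · have := hDz s h1 h2
      linarith
  have hSne : S.Nonempty := ⟨s₁ + x, mem_insert _ _⟩
  set z' : ℝ := sSup S with hz'
  have hz1 : s₁ + x ≤ z' := le_csSup hSb (mem_insert _ _)
  have hDa : ∀ s, L0 ≤ s → s < z' → 0 ≤ D s := by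
    intro s h1 h2
    rcases le_total s (s₁ + x) with h3 | h3
    · exact hD1 s h1 h3
    · obtain ⟨s', hs', hlt⟩ := exists_lt_of_lt_csSup hSne h2
      rcases hs' with rfl | ⟨h4, h5⟩
      · exact absurd hlt (not_lt.2 h3)
      · exact hD2 s' s h3 hlt.le h5
  have hDb : ∀ s, z' < s → D s ≤ 0 := by
    intro s h1
    by_contra h2
    rw [not_le] at h2
    have h3 : s ∈ S := mem_insert_of_mem _ ⟨by linarith, h2⟩
    have := le_csSup hSb h3
    linarith
  have hAc := A_continuous hc hx
  have hder : ∀ s, HasDerivAt (A x r) (D s / x) s := fun s => A_hasDerivAt hc hx s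
  have hMono : MonotoneOn (A x r) (Icc L0 z') := by
    apply monotoneOn_of_deriv_nonneg (convex_Icc _ _) hAc.continuousOn
      (fun s _ => (hder s).differentiableAt.differentiableWithinAt)
    intro s hs
    rw [interior_Icc] at hs
    rw [(hder s).deriv]
    exact div_nonneg (hDa s hs.1.le hs.2) hx.le
  have hAnti : AntitoneOn (A x r) (Ici z') := by
    apply antitoneOn_of_deriv_nonpos (convex_Ici _) hAc.continuousOn
      (fun s _ => (hder s).differentiableAt.differentiableWithinAt)
    intro s hs
    rw [interior_Ici] at hs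
    rw [(hder s).deriv]
    exact div_nonpos_of_nonpos_of_nonneg (hDb s hs) hx.le
  have hA3 : ∀ s, z' ≤ s → 0 ≤ A x r s := by
    intro s hs
    have h1 := hAnti (mem_Ici.2 hs) (mem_Ici.2 (hs.trans (le_max_left s (L + x))))
      (le_max_left s (L + x))
    rw [hAsupp (max s (L + x)) ((le_max_right _ _).trans (le_abs_self _))] at h1
    exact h1
  have hA4 : ∀ s, 0 ≤ s → s ≤ L0 → A x r s ≤ 0 := by
    intro s h1 h2
    rw [A_eq hc hx]
    apply div_nonpos_of_nonpos_of_nonneg _ hx.le
    rcases le_or_gt s x with h3 | h3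
    · have h4 := hRneg (s + x) (by linarith)
      have h5 := hRneg (x - s) (by linarith)
      have h6 : R r (s - x) = - R r (x - s) := by
        rw [← R_neg he]
        congr 1
        ring
      rw [h6]
      linarith
    · -- then `s₁ - x = L0`
      have h4 : s ≤ s₁ - x := by
        rcases abs_cases (s₁ - x) with ⟨h5, _⟩ | ⟨h5, _⟩
        · rw [hL0def, h5] at h2
          exact h2
        · rw [hL0def, h5] at h2
          linarith
      rw [R_sub hc]
      have : (∫ t in (s - x)..(s + x), r t) ≤ ∫ t in (s - x)..(s + x), (0:ℝ) := by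
        apply integral_mono_on (by linarith) (hc.intervalIntegrable _ _) (by simp)
        intro t ht
        exact hrneg t (by linarith [ht.1]) (by linarith [ht.2])
      simpa using this
  have hLz : L0 ≤ z' := hL0c.trans hz1
  obtain ⟨s₂, hs₂, hs₂0⟩ : ∃ s₂ ∈ Icc L0 z', A x r s₂ = 0 := by
    have h1 := intermediate_value_Icc hLz hAc.continuousOn
    exact h1 ⟨hA4 L0 hL0n le_rfl, hA3 z' le_rfl⟩
  refine ⟨s₂, z', hL0n.trans hs₂.1, hs₂.2, ?_, ?_, ?_, hAnti⟩
  · intro s h1 h2
    rcases le_total s L0 with h3 | h3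
    · exact hA4 s h1 h3
    · rw [← hs₂0]
      exact hMono ⟨h3, h2.trans hs₂.2⟩ hs₂ h2
  · intro s h1
    rcases le_total s z' with h3 | h3
    · rw [← hs₂0]
      exact hMono hs₂ ⟨hs₂.1.trans h1, h3⟩ h1
    · exact hA3 s h3
  · exact hMono.mono (Icc_subset_Icc hs₂.1 le_rfl)

end Avg

theorem Sh.avg {r : ℝ → ℝ} (h : Sh r) (x : ℝ) : Sh (A x r) := by
  rcases lt_trichotomy x 0 with hx | rfl | hx
  · rw [← Avg.A_neg]
    exact Avg.main h (by linarith)
  · rw [Avg.A_zero]
    obtain ⟨L, hL⟩ := h.supp
    obtain ⟨s₁, z, hs0, hsz, hneg, hpos, hmono, hanti⟩ := h.shape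
    refine ⟨continuous_const.mul h.cont, fun s => by simp only [h.even], ⟨L, fun s hs => by
      simp only [hL s hs, mul_zero]⟩, ?_, s₁, z, hs0, hsz, ?_, ?_, ?_, ?_⟩
    · rw [MeasureTheory.integral_const_mul, h.int0, mul_zero]
    · intro s h1 h2
      have := hneg s h1 h2
      linarith
    · intro s h1
      have := hpos s h1
      linarith
    · intro a ha b hb hab
      have := hmono ha hb hab
      simp only
      linarith
    · intro a ha b hb hab
      have := hanti ha hb hab
      simp only
      linarith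
  · exact Avg.main h hx

end Slab
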